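import Pool.Agent.helper69.SLR.Cong

set_option autoImplicit false

/-!
# The relative lower bound of the height (helper69)
-/

namespace Pool.Agent.helper69.SLR

open NumberField Height Finset Polynomial Module Pool.Agent.helper79.SL

variable {K L : Type*} [Field K] [NumberField K] [Field L] [NumberField L] [Algebra K L]

/-- One factor `log p` for the whole family of the conjugates `x j` of `x j0` over `K`. -/
theorem height_ge_rel (p e : ℕ) (hp : p.Prime) (hp2 : p ≠ 2) (he : e = 1 ∨ e = p)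
    (σK : K ≃+* K) (σ : L ≃+* L) (hσ : ∀ c : K, σ (algebraMap K L c) = algebraMap K L (σK c))
    (hcong : ∀ c : 𝓞 K, (p : 𝓞 K) ∣ c ^ p - (RingOfIntegers.mapRingEquiv σK c) ^ e)
    {ι : Type*} [Fintype ι] (x : ι → L) (Q : K[X])
    (hQ : Q.map (algebraMap K L) = ∏ j, (X - C (x j))) (j0 : ι)
    (hne : ∀ j, x j0 ^ p ≠ σ (x j) ^ e) (hh : ∀ j, logHeight₁ (x j) = logHeight₁ (x j0)) :
    finrank ℚ L * (Real.log p - Fintype.card ι * Real.log 2) ≤
      Fintype.card ι * ((p + e) * logHeight₁ (x j0)) := by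
  classical
  set d := Fintype.card ι with hd
  set n := finrank ℚ L with hn
  obtain ⟨N, hN, hNx⟩ := exists_integral_multiples ℤ ℚ (Finset.univ.image x)
  have hNL : (N : L) ≠ 0 := by exact_mod_cast hN
  have hint : ∀ j, IsIntegral ℤ ((N : L) * x j) := by
    intro j
    have := hNx (x j) (Finset.mem_image_of_mem x (Finset.mem_univ j))
    rwa [zsmul_eq_mul] at this
  set a : ι → 𝓞 L := fun j => ⟨(N : L) * x j, hint j⟩ with ha
  set b : 𝓞 L := (N : 𝓞 L) with hb
  have haL : ∀ j, ((a j : 𝓞 L) : L) = N * x j := fun j => rfl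
  have hbL : ((b : 𝓞 L) : L) = N := by rw [hb]; simp
  have hb0 : b ≠ 0 := by
    intro h
    apply hNL
    rw [← hbL, h]
    rfl
  have hbL0 : (b : L) ≠ 0 := by rw [hbL]; exact hNL
  have hxab : ∀ j, x j = (a j : L) / b := by
    intro j
    rw [haL, hbL]
    field_simp
  -- the polynomial
  set R1 : (𝓞 L)[X] := ∏ j, (C b * X - C (a j)) with hR1
  have hR1L : R1.map (algebraMap (𝓞 L) L) = (C ((N : K) ^ d) * Q).map (algebraMap K L) := by
    have h1 : ∀ j ∈ (Finset.univ : Finset ι), (C b * X - C (a j)).map (algebraMap (𝓞 L) L) =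
        C (N : L) * (X - C (x j)) := by
      intro j _
      rw [Polynomial.map_sub, Polynomial.map_mul, Polynomial.map_C, Polynomial.map_C,
        Polynomial.map_X]
      have h2 : algebraMap (𝓞 L) L b = N := hbL
      have h3 : algebraMap (𝓞 L) L (a j) = N * x j := haL j
      rw [h2, h3, C_mul]
      ring
    have h4 : (C ((N : K) ^ d) * Q).map (algebraMap K L) =
        C (N : L) ^ d * ∏ j, (X - C (x j)) := by
      rw [Polynomial.map_mul, hQ, Polynomial.map_C, map_pow, map_intCast, C_pow]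
    rw [h4, hR1, Polynomial.map_prod, Finset.prod_congr rfl h1, Finset.prod_mul_distrib,
      Finset.prod_const, Finset.card_univ]
  have hlift : R1 ∈ lifts (algebraMap (𝓞 K) (𝓞 L)) := by
    rw [lifts_iff_coeff_lifts]
    intro i
    have h1 : ((R1.coeff i : 𝓞 L) : L) = algebraMap K L ((N : K) ^ d * Q.coeff i) := by
      have h2 := congrArg (fun q : L[X] => q.coeff i) hR1L
      simp only [coeff_map, coeff_C_mul] at h2
      exact h2
    have h2 : IsIntegral ℤ ((N : K) ^ d * Q.coeff i) := by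
      have h3 : IsIntegral ℤ (algebraMap K L ((N : K) ^ d * Q.coeff i)) := by
        rw [← h1]
        exact (R1.coeff i).2
      exact (isIntegral_algebraMap_iff (algebraMap K L).injective).1 h3
    refine ⟨⟨_, h2⟩, ?_⟩
    apply RingOfIntegers.ext
    rw [h1]
    rfl
  obtain ⟨P, hP⟩ := (mem_lifts _).1 hlift
  set s := RingOfIntegers.mapRingEquiv σ with hs
  set sK := RingOfIntegers.mapRingEquiv σK with hsK
  have hscomm : ∀ c : 𝓞 K, s (algebraMap (𝓞 K) (𝓞 L) c) = algebraMap (𝓞 K) (𝓞 L) (sK c) := by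
    intro c
    apply RingOfIntegers.ext
    exact hσ c
  have hmem := mem_rel p e hp hp2 he sK s hscomm hcong a b hb0 P hP j0
  set U : 𝓞 L := ∏ j, (a j0 ^ p * (s b) ^ e - b ^ p * (s (a j)) ^ e) with hU
  have hsL : ∀ c : 𝓞 L, ((s c : 𝓞 L) : L) = σ (c : L) := fun c => rfl
  have hU0 : U ≠ 0 := by
    rw [hU, Finset.prod_ne_zero_iff]
    intro j _ h
    apply hne j
    have h1 : (a j0 : L) ^ p * (σ b) ^ e - (b : L) ^ p * (σ (a j)) ^ e = 0 := by
      have h2 := congrArg (fun z : 𝓞 L => (z : L)) h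
      simpa [hsL] using h2
    have hsb : σ (b : L) ≠ 0 := (map_ne_zero σ).2 hbL0
    rw [hxab j0, hxab j, map_div₀, div_pow, div_pow,
      div_eq_div_iff (pow_ne_zero _ hbL0) (pow_ne_zero _ hsb)]
    linear_combination h1
  obtain ⟨Nj, hNj⟩ : ∃ Nj : ι → ℕ, ∀ j, Nj j = Ideal.absNorm (Ideal.span {a j, b}) :=
    ⟨_, fun _ => rfl⟩
  have hNj0 : ∀ j, Nj j ≠ 0 := by
    intro j
    rw [hNj, Ne, Ideal.absNorm_eq_zero_iff]
    intro h
    apply hb0
    have : b ∈ Ideal.span {a j, b} := Ideal.subset_span (by simp)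
    rw [h] at this
    simpa using this
  have hnorm : Ideal.absNorm (Ideal.span {(p : 𝓞 L)} *
      ((∏ j, (Ideal.span {a j, b}).map (s : 𝓞 L →+* 𝓞 L)) ^ e *
        (Ideal.span {a j0, b}) ^ (p * d))) = p ^ n * ((∏ j, Nj j) ^ e * Nj j0 ^ (p * d)) := by
    rw [map_mul, map_mul, map_pow, map_pow, map_prod, Ideal.absNorm_span_natCast,
      RingOfIntegers.rank, ← hNj j0]
    congr 3
    refine Finset.prod_congr rfl fun j _ => ?_
    rw [absNorm_map_equiv, hNj]
  have hdvd := Ideal.absNorm_dvd_absNorm_of_le ((Ideal.span_singleton_le_iff_mem _).2 hmem)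
  rw [hnorm] at hdvd
  have hUn : Ideal.absNorm (Ideal.span {U}) ≠ 0 := by
    rw [Ne, Ideal.absNorm_eq_zero_iff, Ideal.span_singleton_eq_bot]
    exact hU0
  have hle := Nat.le_of_dvd (Nat.pos_of_ne_zero hUn) hdvd
  -- the upper bound
  obtain ⟨M, hM⟩ : ∃ M : ι → ℝ, ∀ j, M j = ∏ φ : L →+* ℂ, max ‖φ (a j)‖ ‖φ b‖ :=
    ⟨_, fun _ => rfl⟩
  have hub : (Ideal.absNorm (Ideal.span {U}) : ℝ) ≤ ∏ j, (2 ^ n * (M j0 ^ p * M j ^ e)) := by
    rw [abs_norm_eq]
    have h1 : ∀ φ : L →+* ℂ, ‖φ U‖ ≤ ∏ j, (2 * ((max ‖φ (a j0)‖ ‖φ b‖) ^ p *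
        (max ‖φ.comp (σ : L →+* L) (a j)‖ ‖φ.comp (σ : L →+* L) b‖) ^ e)) := by
      intro φ
      have e0 : ((U : 𝓞 L) : L) = ∏ j, ((a j0 : L) ^ p * (σ b) ^ e - (b : L) ^ p *
          (σ (a j)) ^ e) := by
        rw [hU]
        have := map_prod (algebraMap (𝓞 L) L)
          (fun j => a j0 ^ p * (s b) ^ e - b ^ p * (s (a j)) ^ e) Finset.univ
        refine this.trans (Finset.prod_congr rfl fun j _ => ?_)
        simp [hsL]
      rw [e0, map_prod, norm_prod]
      refine Finset.prod_le_prod (fun j _ => norm_nonneg _) fun j _ => ?_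
      have e1 : φ ((a j0 : L) ^ p * (σ b) ^ e - (b : L) ^ p * (σ (a j)) ^ e) =
          (φ (a j0)) ^ p * (φ.comp (σ : L →+* L) b) ^ e -
          (φ b) ^ p * (φ.comp (σ : L →+* L) (a j)) ^ e := by
        simp
      rw [e1]
      refine (norm_sub_le _ _).trans ?_
      rw [norm_mul, norm_mul, norm_pow, norm_pow, norm_pow, norm_pow, two_mul]
      refine add_le_add ?_ ?_
      · exact mul_le_mul (pow_le_pow_left₀ (norm_nonneg _) (le_max_left _ _) _)
          (pow_le_pow_left₀ (norm_nonneg _) (le_max_right _ _) _) (by positivity) (by positivity)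
      · exact mul_le_mul (pow_le_pow_left₀ (norm_nonneg _) (le_max_right _ _) _)
          (pow_le_pow_left₀ (norm_nonneg _) (le_max_left _ _) _) (by positivity) (by positivity)
    refine (Finset.prod_le_prod (fun φ _ => norm_nonneg _) fun φ _ => h1 φ).trans ?_
    rw [Finset.prod_comm]
    refine le_of_eq (Finset.prod_congr rfl fun j _ => ?_)
    rw [Finset.prod_mul_distrib, Finset.prod_mul_distrib, Finset.prod_pow,
      Finset.prod_pow, prod_comp σ (fun φ => max ‖φ (a j)‖ ‖φ b‖),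
      Finset.prod_const, Finset.card_univ, Embeddings.card, ← hM, ← hM]
  have hMh : ∀ j, M j = mulHeight₁ (x j) * Nj j := by
    intro j
    rw [hxab j, hM, hNj]
    exact (mulHeight₁_frac (a j) b hb0).symm
  have hNpos : ∀ j, (0 : ℝ) < Nj j := fun j => by exact_mod_cast Nat.pos_of_ne_zero (hNj0 j)
  have hmain : ((p : ℝ)) ^ n ≤ ∏ j, (2 ^ n * (mulHeight₁ (x j0) ^ p * mulHeight₁ (x j) ^ e)) := by
    have h1 : ((p : ℝ)) ^ n * ((∏ j, (Nj j : ℝ)) ^ e * (Nj j0 : ℝ) ^ (p * d)) ≤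
        (∏ j, (2 ^ n * (mulHeight₁ (x j0) ^ p * mulHeight₁ (x j) ^ e))) *
          ((∏ j, (Nj j : ℝ)) ^ e * (Nj j0 : ℝ) ^ (p * d)) := by
      calc _ = ((p ^ n * ((∏ j, Nj j) ^ e * Nj j0 ^ (p * d)) : ℕ) : ℝ) := by push_cast; rfl
        _ ≤ (Ideal.absNorm (Ideal.span {U}) : ℝ) := by exact_mod_cast hle
        _ ≤ _ := hub
        _ = _ := by
          have h2 : ∀ j ∈ (Finset.univ : Finset ι), (2 : ℝ) ^ n * (M j0 ^ p * M j ^ e) =
              (2 ^ n * (mulHeight₁ (x j0) ^ p * mulHeight₁ (x j) ^ e)) *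
                ((Nj j : ℝ) ^ e * (Nj j0 : ℝ) ^ p) := by
            intro j _
            rw [hMh j0, hMh j, mul_pow, mul_pow]
            ring
          have h5 : ∏ j, ((Nj j : ℝ) ^ e * (Nj j0 : ℝ) ^ p) =
              (∏ j, (Nj j : ℝ)) ^ e * (Nj j0 : ℝ) ^ (p * d) := by
            rw [Finset.prod_mul_distrib, Finset.prod_pow, Finset.prod_const, Finset.card_univ,
              ← pow_mul, ← hd]
          rw [Finset.prod_congr rfl h2, Finset.prod_mul_distrib, h5]
    refine le_of_mul_le_mul_right h1 ?_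
    exact mul_pos (pow_pos (Finset.prod_pos fun j _ => hNpos j) _) (pow_pos (hNpos j0) _)
  have hp' : (0 : ℝ) < p := by exact_mod_cast hp.pos
  have h3 := Real.log_le_log (by positivity) hmain
  have hH : ∀ j, (0 : ℝ) < mulHeight₁ (x j) := fun j => mulHeight₁_pos _
  rw [Real.log_pow, Real.log_prod (fun j _ => by
    have := hH j
    have := hH j0
    positivity)] at h3
  have h4 : ∀ j ∈ (Finset.univ : Finset ι),
      Real.log (2 ^ n * (mulHeight₁ (x j0) ^ p * mulHeight₁ (x j) ^ e)) =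
      n * Real.log 2 + (p + e) * logHeight₁ (x j0) := by
    intro j _
    rw [Real.log_mul (by positivity) (mul_ne_zero (pow_ne_zero _ (hH j0).ne')
      (pow_ne_zero _ (hH j).ne')), Real.log_mul (pow_ne_zero _ (hH j0).ne')
      (pow_ne_zero _ (hH j).ne'), Real.log_pow, Real.log_pow, Real.log_pow,
      ← logHeight₁_eq_log_mulHeight₁, ← logHeight₁_eq_log_mulHeight₁, hh j]
    ring
  rw [Finset.sum_congr rfl h4, Finset.sum_const, Finset.card_univ, nsmul_eq_mul, ← hd] at h3
  linarith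

end Pool.Agent.helper69.SLR
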