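import Pool.Agent.helper69.SLR.Gen
import Pool.Agent.helper69.SLR.Rel
import Pool.Agent.helper79.SL.Ab

set_option autoImplicit false

/-!
# The descent in the level, for elements of bounded degree over cyclotomic fields (helper69)
-/

namespace Pool.Agent.helper69.SLR

open NumberField Height Finset Module IntermediateField Polynomial Pool.Agent.helper79.SL

section

variable {L : Type*} [Field L] [NumberField L]

lemma logHeight_aut (σ : L ≃+* L) (x : L) : logHeight₁ (σ x) = logHeight₁ x := by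
  obtain ⟨φ⟩ : Nonempty (L →+* ℂ) := inferInstance
  have h1 := ht_eq φ (σ x)
  have h2 := ht_eq (φ.comp (σ : L →+* L)) x
  have h3 : φ (σ x) = (φ.comp (σ : L →+* L)) x := rfl
  rw [h3, h2] at h1
  have hd : (finrank ℚ L : ℝ) ≠ 0 := by exact_mod_cast (finrank_pos : 0 < finrank ℚ L).ne'
  exact ((div_left_inj' hd).1 h1).symm

lemma logHeight_torsion (z x : L) (k : ℕ) (hk : 0 < k) (hz : z ^ k = 1) :
    logHeight₁ (z * x) = logHeight₁ x := by
  obtain ⟨φ⟩ : Nonempty (L →+* ℂ) := inferInstance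
  have hx : IsAlgebraic ℚ (φ x) := by
    have : IsAlgebraic ℚ x := Algebra.IsAlgebraic.isAlgebraic x
    exact this.algHom φ.toRatAlgHom
  have h1 := ht_eq φ (z * x)
  have h2 := ht_eq φ x
  have h3 := ht_mul_torsion hx hk (ζ := φ z) (by rw [← map_pow, hz, map_one])
  rw [map_mul, h3, h2] at h1
  have hd : (finrank ℚ L : ℝ) ≠ 0 := by exact_mod_cast (finrank_pos : 0 < finrank ℚ L).ne'
  exact ((div_left_inj' hd).1 h1).symm

lemma cycL {m : ℕ} [NeZero m] {Z : L} (hZ : IsPrimitiveRoot Z m) :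
    IsCyclotomicExtension {m} ℚ ℚ⟮Z⟯ := by
  change IsCyclotomicExtension {m} ℚ (ℚ⟮Z⟯).toSubalgebra
  have h1 : IsAlgebraic ℚ Z := Algebra.IsAlgebraic.isAlgebraic Z
  rw [IntermediateField.adjoin_simple_toSubalgebra_of_isAlgebraic h1]
  exact hZ.adjoin_isCyclotomicExtension ℚ

/-- `x` has degree at most `f` over `ℚ(Z)` -/
def Low (f : ℕ) (Z x : L) : Prop :=
  ∃ F : L[X], F.Monic ∧ F.natDegree ≤ f ∧ F.eval x = 0 ∧ ∀ i, F.coeff i ∈ ℚ⟮Z⟯

/-- iterating `x ^ p = ρ x` -/
lemma torsion_of_frob (ρ : L ≃ₐ[ℚ] L) {x : L} (hx : x ≠ 0) (p : ℕ) (hp : 1 < p)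
    (h : x ^ p = ρ x) : ∃ k : ℕ, 0 < k ∧ x ^ k = 1 := by
  have h1 : ∀ i : ℕ, (ρ ^ i) x = x ^ (p ^ i) := by
    intro i
    induction i with
    | zero => simp
    | succ i ihi =>
      rw [pow_succ, AlgEquiv.mul_apply, ← h, map_pow, ihi, ← pow_mul, ← pow_succ]
  have h2 := h1 (Nat.card (L ≃ₐ[ℚ] L))
  rw [pow_card_eq_one', AlgEquiv.one_apply] at h2
  set N := Nat.card (L ≃ₐ[ℚ] L) with hN
  have hNpos : 0 < N := Nat.card_pos
  have h3 : 1 < p ^ N := Nat.one_lt_pow hNpos.ne' hp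
  refine ⟨p ^ N - 1, by omega, ?_⟩
  have h5 : x ^ (p ^ N - 1) * x = 1 * x := by
    rw [← pow_succ, one_mul, Nat.sub_add_cancel h3.le]
    exact h2.symm
  exact mul_right_cancel₀ hx h5

section field

variable (K : IntermediateField ℚ L)

lemma natDegree_le {f : ℕ} {x : L} {F : L[X]} (h1 : F.Monic) (h2 : F.natDegree ≤ f)
    (h3 : F.eval x = 0) (h4 : ∀ i, F.coeff i ∈ K) : (minpoly K x).natDegree ≤ f := by
  have hl : F ∈ lifts (algebraMap K L) := by
    rw [lifts_iff_coeff_lifts]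
    exact fun i => ⟨⟨F.coeff i, h4 i⟩, rfl⟩
  obtain ⟨q, hq1, hq2, hq3⟩ := lifts_and_natDegree_eq_and_monic hl h1
  refine le_trans (natDegree_le_natDegree (minpoly.min K x hq3 ?_)) (hq2.le.trans h2)
  rw [aeval_def, ← eval_map, hq1, h3]

/-- the good case -/
lemma good [IsGalois ℚ L] (f p e : ℕ) (hf : 1 ≤ f) (hp : p.Prime) (hp2 : p ≠ 2)
    (he : e = 1 ∨ e = p)
    (σK : K ≃ₐ[ℚ] K) (σ : L ≃ₐ[ℚ] L) (hσ : ∀ c : K, σ (c : L) = (σK c : L))
    (hcong : ∀ c : 𝓞 K, (p : 𝓞 K) ∣ c ^ p -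
      (RingOfIntegers.mapRingEquiv (σK : K ≃+* K) c) ^ e)
    (x : L) (hdeg : (minpoly K x).natDegree ≤ f)
    (hne : ∀ ρ : L ≃ₐ[ℚ] L, (∀ c : K, ρ (c : L) = (σK c : L)) → x ^ p ≠ (ρ x) ^ e) :
    finrank ℚ L * (Real.log p - f * Real.log 2) ≤ f * (2 * p * logHeight₁ x) := by
  classical
  have : IsGalois K L := IsGalois.tower_top_intermediateField K
  set Q := minpoly K x with hQ
  have hxint : IsIntegral K x := Algebra.IsIntegral.isIntegral x
  have hQm : Q.Monic := minpoly.monic hxint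
  have hQs : Q.Separable := (IsGalois.separable K x)
  have hQsp : (Q.map (algebraMap K L)).Splits := Normal.splits inferInstance x
  have hx : x ∈ Q.rootSet L := mem_rootSet.2 ⟨hQm.ne_zero, minpoly.aeval K x⟩
  have hQprod : Q.map (algebraMap K L) = ∏ j : Q.rootSet L, (X - C (j : L)) := by
    have h1 := hQsp.eq_prod_roots_of_monic (hQm.map _)
    have h2 : (Q.map (algebraMap K L)).roots.Nodup := nodup_roots (hQs.map)
    have h3 : ∏ j ∈ (Q.map (algebraMap K L)).roots.toFinset, (X - C j) =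
        ∏ j : Q.rootSet L, (X - C (j : L)) := by
      refine Finset.prod_subtype _ (fun j => ?_) _
      rw [Multiset.mem_toFinset, mem_rootSet', mem_roots', IsRoot.def, aeval_def, eval_map]
    rw [← h3]
    refine h1.trans ?_
    rw [Finset.prod_multiset_map_count]
    refine Finset.prod_congr rfl fun j hj => ?_
    rw [Multiset.count_eq_one_of_mem h2 (Multiset.mem_toFinset.1 hj), pow_one]
  have hcard : Fintype.card (Q.rootSet L) = Q.natDegree := card_rootSet_eq_natDegree hQs hQsp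
  have hconj : ∀ j : Q.rootSet L, ∃ τ : L ≃ₐ[K] L, τ x = j := by
    intro j
    exact minpoly.exists_algEquiv_of_root' hxint.isAlgebraic (mem_rootSet.1 j.2).2
  have hmain := height_ge_rel p e hp hp2 he (σK : K ≃+* K) (σ : L ≃+* L) hσ hcong
    (fun j : Q.rootSet L => (j : L)) Q hQprod ⟨x, hx⟩ (by
      intro j
      obtain ⟨τ, hτ⟩ := hconj j
      have h1 := hne ((τ.restrictScalars ℚ).trans σ) (by
        intro c
        have h2 : τ (c : L) = c := τ.commutes c
        rw [← hσ c]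
        show σ (τ (c : L)) = σ (c : L)
        rw [h2])
      have h3 : ((τ.restrictScalars ℚ).trans σ) x = σ (j : L) := by
        show σ (τ x) = σ (j : L)
        rw [hτ]
      rw [h3] at h1
      exact h1) (by
      intro j
      obtain ⟨τ, hτ⟩ := hconj j
      have := logHeight_aut (τ : L ≃+* L) x
      show logHeight₁ (j : L) = logHeight₁ x
      rw [← this, ← hτ]
      rfl)
  rw [hcard] at hmain
  have hnn : 0 ≤ logHeight₁ x := zero_le_logHeight₁ x
  have hdn : (0 : ℝ) ≤ finrank ℚ L := by positivity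
  have hl2 : 0 ≤ Real.log 2 := Real.log_nonneg (by norm_num)
  have hg : (Q.natDegree : ℝ) ≤ f := by exact_mod_cast hdeg
  have hep : (e : ℝ) ≤ p := by
    rcases he with h | h
    · rw [h]
      exact_mod_cast hp.one_le
    · rw [h]
  have h1 : (finrank ℚ L : ℝ) * (Real.log p - f * Real.log 2) ≤
      finrank ℚ L * (Real.log p - Q.natDegree * Real.log 2) := by
    apply mul_le_mul_of_nonneg_left _ hdn
    have := mul_le_mul_of_nonneg_right hg hl2
    linarith
  have h2 : (Q.natDegree : ℝ) * ((p + e) * logHeight₁ x) ≤ f * (2 * p * logHeight₁ x) := by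
    apply mul_le_mul hg _ (by positivity) (by positivity)
    apply mul_le_mul_of_nonneg_right _ hnn
    linarith
  exact h1.trans (hmain.trans h2)

end field

/-- **The lower bound of the height for elements of degree at most `f` over cyclotomic fields.** -/
theorem desc [IsGalois ℚ L] (f p : ℕ) (hf : 1 ≤ f) [hp : Fact p.Prime] (hp2 : p ≠ 2) (m : ℕ) :
    0 < m → ∀ Z : L, IsPrimitiveRoot Z m → ∀ x : L, x ≠ 0 → (∀ k : ℕ, 0 < k → x ^ k ≠ 1) →
    Low f Z x → finrank ℚ L * (Real.log p - f * Real.log 2) ≤ f * (2 * p * logHeight₁ x) := by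
  induction m using Nat.strong_induction_on with
  | _ m ih =>
  intro hm Z hZ x hx0 hxt hlow
  have : NeZero m := ⟨hm.ne'⟩
  have hcyc : IsCyclotomicExtension {m} ℚ ℚ⟮Z⟯ := cycL hZ
  have : NumberField ℚ⟮Z⟯ := IsCyclotomicExtension.numberField {m} ℚ ℚ⟮Z⟯
  have : IsGalois ℚ ℚ⟮Z⟯ := IsCyclotomicExtension.isGalois {m} ℚ ℚ⟮Z⟯
  have : IsGalois ℚ⟮Z⟯ L := IsGalois.tower_top_intermediateField ℚ⟮Z⟯
  set ZK : ℚ⟮Z⟯ := ⟨Z, mem_adjoin_simple_self ℚ Z⟩ with hZK
  have hZKL : ((ZK : ℚ⟮Z⟯) : L) = Z := rfl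
  have hZp : IsPrimitiveRoot ZK m := IsPrimitiveRoot.coe_submonoidClass_iff.1 hZ
  have hZ0 : Z ≠ 0 := hZ.ne_zero hm.ne'
  obtain ⟨F, hF1, hF2, hF3, hF4⟩ := hlow
  have hdeg := natDegree_le ℚ⟮Z⟯ hF1 hF2 hF3 hF4
  have hlift : ∀ σK : ℚ⟮Z⟯ ≃ₐ[ℚ] ℚ⟮Z⟯, ∀ c : ℚ⟮Z⟯, (σK.liftNormal L) (c : L) = (σK c : L) :=
    fun σK c => AlgEquiv.liftNormal_commutes σK L c
  by_cases hpm : p ∣ m
  · obtain ⟨m', hm'⟩ := hpm
    have hm'0 : 0 < m' := Nat.pos_of_ne_zero (by rintro rfl; omega)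
    have hpp := hp.out.one_lt
    have hm'm : m' < m := by
      rw [hm']
      exact lt_mul_left hm'0 hpp
    obtain ⟨σ₀, hσ₀, hgen, htw⟩ := gen_twist hZp p hp2 m' hm'
    by_cases hex : ∀ ρ : L ≃ₐ[ℚ] L, (∀ c : ℚ⟮Z⟯, ρ (c : L) = (σ₀ c : L)) → x ^ p ≠ (ρ x) ^ p
    · exact good ℚ⟮Z⟯ f p p hf hp.out hp2 (Or.inr rfl) σ₀ (σ₀.liftNormal L) (hlift σ₀)
        (cong2 hZp p hσ₀) x hdeg hex
    · push Not at hex
      obtain ⟨ρ, hρ1, hρ2⟩ := hex
      have hη : IsPrimitiveRoot (Z ^ m') p := hZ.pow hm (by rw [hm', mul_comm])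
      obtain ⟨a, -, ha⟩ := hη.eq_pow_of_pow_eq_one (ξ := ρ x / x) (by
        rw [div_pow, ← hρ2, div_self (pow_ne_zero _ hx0)])
      have ha' : ρ x = (Z ^ m') ^ a * x := by rw [ha, div_mul_cancel₀ _ hx0]
      obtain ⟨j, hj⟩ := htw a
      have hjL : ρ (Z ^ j) * (Z ^ m') ^ a = Z ^ j := by
        have h1 := congrArg (fun c : ℚ⟮Z⟯ => (c : L)) hj
        have h2 := hρ1 (ZK ^ j)
        simp only [MulMemClass.coe_mul, SubmonoidClass.coe_pow, hZKL] at h1 h2
        rw [h2]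
        exact h1
      set y := Z ^ j * x with hy
      have hρy : ρ y = y := by
        rw [hy, map_mul, ha', ← mul_assoc, hjL]
      have hy0 : y ≠ 0 := mul_ne_zero (pow_ne_zero _ hZ0) hx0
      have hZj : (Z ^ j) ^ m = 1 := by rw [← pow_mul, mul_comm, pow_mul, hZ.pow_eq_one, one_pow]
      have hyt : ∀ k : ℕ, 0 < k → y ^ k ≠ 1 := by
        intro k hk h8
        apply hxt (k * m) (Nat.mul_pos hk hm)
        have h9 : (Z ^ j * x) ^ (k * m) = 1 := by rw [pow_mul, ← hy, h8, one_pow]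
        rw [mul_pow, mul_comm k m, pow_mul (Z ^ j), hZj, one_pow, one_mul, mul_comm] at h9
        exact h9
      -- the minimal polynomial of `y`
      have hyint : IsIntegral ℚ⟮Z⟯ y := Algebra.IsIntegral.isIntegral y
      have hQm : (minpoly ℚ⟮Z⟯ y).Monic := minpoly.monic hyint
      have hQdeg : (minpoly ℚ⟮Z⟯ y).natDegree ≤ f := by
        refine le_trans (natDegree_le_natDegree (minpoly.min ℚ⟮Z⟯ y
          (p := (minpoly ℚ⟮Z⟯ x).scaleRoots (ZK ^ j)) ?_ ?_)) ?_
        · rw [monic_scaleRoots_iff]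
          exact minpoly.monic (Algebra.IsIntegral.isIntegral x)
        · have := scaleRoots_aeval_eq_zero (r := ZK ^ j) (minpoly.aeval ℚ⟮Z⟯ x)
          exact this
        · rw [natDegree_scaleRoots]
          exact hdeg
      have hQfix : (minpoly ℚ⟮Z⟯ y).map (σ₀ : ℚ⟮Z⟯ →+* ℚ⟮Z⟯) = minpoly ℚ⟮Z⟯ y := by
        apply eq_of_monic_of_dvd_of_natDegree_le hQm (hQm.map _)
        · apply minpoly.dvd
          have h1 : ((algebraMap ℚ⟮Z⟯ L).comp (σ₀ : ℚ⟮Z⟯ →+* ℚ⟮Z⟯)) =
              (ρ : L →+* L).comp (algebraMap ℚ⟮Z⟯ L) := by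
            ext c
            exact (hρ1 c).symm
          rw [aeval_def, eval₂_map, h1]
          have h2 := hom_eval₂ (minpoly ℚ⟮Z⟯ y) (algebraMap ℚ⟮Z⟯ L) (ρ : L →+* L) y
          rw [← aeval_def, minpoly.aeval, map_zero] at h2
          have h3 : (ρ : L →+* L) y = y := hρy
          rw [h3] at h2
          exact h2.symm
        · exact (natDegree_map_le)
      have hcoef : ∀ i, (minpoly ℚ⟮Z⟯ y).coeff i ∈ ℚ⟮ZK ^ p⟯ := by
        intro i
        apply mem_of_fixed
        intro σ hσ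
        obtain ⟨k, rfl⟩ := hgen σ hσ
        have h1 : σ₀ ((minpoly ℚ⟮Z⟯ y).coeff i) = (minpoly ℚ⟮Z⟯ y).coeff i := by
          conv_rhs => rw [← hQfix]
          rw [coeff_map]
          rfl
        clear hσ
        induction k with
        | zero => simp
        | succ k ihk =>
          rw [pow_succ, AlgEquiv.mul_apply, h1]
          exact ihk
      have hlowy : Low f (Z ^ p) y := by
        refine ⟨(minpoly ℚ⟮Z⟯ y).map (algebraMap ℚ⟮Z⟯ L), hQm.map _, ?_, ?_, ?_⟩
        · exact natDegree_map_le.trans hQdeg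
        · rw [eval_map, ← aeval_def, minpoly.aeval]
        · intro i
          rw [coeff_map]
          have h4 : ∀ c ∈ ℚ⟮ZK ^ p⟯, (c : L) ∈ ℚ⟮Z ^ p⟯ := by
            intro c hc
            induction hc using adjoin_induction with
            | mem c hc =>
              rw [Set.mem_singleton_iff.1 hc]
              exact mem_adjoin_simple_self ℚ (Z ^ p)
            | algebraMap q =>
              have : ((algebraMap ℚ ℚ⟮Z⟯ q : ℚ⟮Z⟯) : L) = algebraMap ℚ L q := rfl
              rw [this]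
              exact IntermediateField.algebraMap_mem _ q
            | add a b _ _ ha hb => exact add_mem ha hb
            | inv a _ ha => exact inv_mem ha
            | mul a b _ _ ha hb => exact mul_mem ha hb
          exact h4 _ (hcoef i)
      have h7 := ih m' hm'm hm'0 (Z ^ p) (hZ.pow hm hm') y hy0 hyt hlowy
      rwa [hy, logHeight_torsion (Z ^ j) x m hm hZj] at h7
  · have hcop : Nat.Coprime p m := (Nat.Prime.coprime_iff_not_dvd hp.out).2 hpm
    obtain ⟨σK, hσK⟩ := exists_aut hZp hcop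
    refine good ℚ⟮Z⟯ f p 1 hf hp.out hp2 (Or.inl rfl) σK (σK.liftNormal L) (hlift σK)
      (cong1 hZp p hσK) x hdeg ?_
    intro ρ _ hρ
    rw [pow_one] at hρ
    obtain ⟨k, hk, hk1⟩ := torsion_of_frob ρ hx0 p hp.out.one_lt hρ
    exact hxt k hk hk1

end

end Pool.Agent.helper69.SLR
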