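import Pool.Agent.helper79.SL.Cyc

set_option autoImplicit false

/-!
# A generator of the Galois group of `ℚ(ζ)` over `ℚ(ζ ^ p)` and the twist (helper69)
-/

namespace Pool.Agent.helper69.SLR

open NumberField Height Finset Module IntermediateField Polynomial Pool.Agent.helper79.SL

variable {K : Type*} [Field K] [NumberField K] {m : ℕ} [NeZero m] [IsCyclotomicExtension {m} ℚ K]
  {ζ : K}

lemma aut_pow_coprime (hζ : IsPrimitiveRoot ζ m) (σ : K ≃ₐ[ℚ] K) :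
    ∃ k : ℕ, k.Coprime m ∧ σ ζ = ζ ^ k := by
  obtain ⟨k, hk⟩ := aut_pow hζ σ
  refine ⟨k, ?_, hk⟩
  have h1 : IsPrimitiveRoot (σ ζ) m := hζ.map_of_injective σ.injective
  rw [hk] at h1
  exact (hζ.pow_iff_coprime (NeZero.pos m) k).1 h1

omit [NumberField K] [NeZero m] [IsCyclotomicExtension {m} ℚ K] in
lemma pow_eq_of_modEq (hζ : IsPrimitiveRoot ζ m) {a b : ℕ} (h : a ≡ b [MOD m]) :
    ζ ^ a = ζ ^ b := by
  rw [pow_eq_pow_mod a hζ.pow_eq_one, pow_eq_pow_mod b hζ.pow_eq_one]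
  exact congrArg _ h

omit [NumberField K] [IsCyclotomicExtension {m} ℚ K] in
lemma modEq_of_pow_eq (hζ : IsPrimitiveRoot ζ m) {a b : ℕ} (h : ζ ^ a = ζ ^ b) :
    a ≡ b [MOD m] := by
  rw [pow_eq_pow_mod a hζ.pow_eq_one, pow_eq_pow_mod b hζ.pow_eq_one] at h
  exact hζ.pow_inj (Nat.mod_lt _ (NeZero.pos m)) (Nat.mod_lt _ (NeZero.pos m)) h

/-- case `p ∤ m / p` -/
lemma gen_A (hζ : IsPrimitiveRoot ζ m) (p : ℕ) [hp : Fact p.Prime] (hp2 : p ≠ 2)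
    (m' : ℕ) (hm : m = p * m') (hpm : ¬ p ∣ m') :
    ∃ σ₀ : K ≃ₐ[ℚ] K, σ₀ (ζ ^ p) = ζ ^ p ∧
      (∀ σ : K ≃ₐ[ℚ] K, σ (ζ ^ p) = ζ ^ p → ∃ i : ℕ, σ = σ₀ ^ i) ∧
      ∀ a : ℕ, ∃ j : ℕ, σ₀ (ζ ^ j) * (ζ ^ m') ^ a = ζ ^ j := by
  classical
  have hcop : Nat.Coprime p m' := (Nat.Prime.coprime_iff_not_dvd hp.out).2 hpm
  have hpp := hp.out.pos
  obtain ⟨g, hg⟩ := IsCyclic.exists_generator (α := (ZMod p)ˣ)
  have hg1 : (g : ZMod p) ≠ 1 := by
    intro h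
    have h2 : g = 1 := Units.ext h
    have h3 : ∀ u : (ZMod p)ˣ, u = 1 := by
      intro u
      have := hg u
      rw [h2, Subgroup.zpowers_one_eq_bot, Subgroup.mem_bot] at this
      exact this
    have h4 : Fintype.card (ZMod p)ˣ = 1 := Fintype.card_eq_one_iff.2 ⟨1, h3⟩
    rw [ZMod.card_units_eq_totient, Nat.totient_prime hp.out] at h4
    omega
  obtain ⟨k, hk1, hk2⟩ := Nat.chineseRemainder hcop (g : ZMod p).val 1
  have hkz : ((k : ℕ) : ZMod p) = g := by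
    rw [← ZMod.natCast_zmod_val (g : ZMod p)]
    exact (ZMod.natCast_eq_natCast_iff _ _ _).2 hk1
  have hkp : Nat.Coprime k p := by
    rw [← ZMod.isUnit_iff_coprime, hkz]
    exact g.isUnit
  have hkm' : Nat.Coprime k m' := by
    have := hk2.gcd_eq
    rw [Nat.gcd_one_left] at this
    exact this
  have hkm : k.Coprime m := by rw [hm]; exact Nat.Coprime.mul_right hkp hkm'
  obtain ⟨σ₀, hσ₀⟩ := exists_aut hζ hkm
  have hpw : ∀ i : ℕ, (σ₀ ^ i) ζ = ζ ^ (k ^ i) := by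
    intro i
    induction i with
    | zero => simp
    | succ i ih => rw [pow_succ, AlgEquiv.mul_apply, hσ₀, map_pow, ih, ← pow_mul, ← pow_succ]
  refine ⟨σ₀, ?_, ?_, ?_⟩
  · rw [map_pow, hσ₀, ← pow_mul]
    apply pow_eq_of_modEq hζ
    rw [hm]
    have := Nat.ModEq.mul_left' p hk2
    rw [mul_one] at this
    rw [mul_comm k p]
    exact this
  · intro σ hσ
    obtain ⟨s, hs1, hs2⟩ := aut_pow_coprime hζ σ
    rw [map_pow, hs2, ← pow_mul] at hσ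
    have h1 := modEq_of_pow_eq hζ hσ
    have h2 : s ≡ 1 [MOD m'] := by
      rw [hm, mul_comm s p] at h1
      have h3 : p * s ≡ p * 1 [MOD p * m'] := by rw [mul_one]; exact h1
      exact Nat.ModEq.mul_left_cancel' hpp.ne' h3
    have hsp : Nat.Coprime s p := by
      rw [hm] at hs1
      exact Nat.Coprime.coprime_mul_right_right hs1
    obtain ⟨i, hi⟩ : ∃ i : ℕ, g ^ i = ZMod.unitOfCoprime s hsp := by
      have h3 := hg (ZMod.unitOfCoprime s hsp)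
      rw [← mem_powers_iff_mem_zpowers] at h3
      exact h3
    refine ⟨i, aut_ext hζ ?_⟩
    rw [hs2, hpw]
    apply pow_eq_of_modEq hζ
    rw [hm]
    refine (Nat.modEq_and_modEq_iff_modEq_mul hcop).1 ⟨?_, ?_⟩
    · rw [← ZMod.natCast_eq_natCast_iff]
      push_cast
      rw [hkz]
      have h4 := congrArg (fun u : (ZMod p)ˣ => (u : ZMod p)) hi
      simp only [Units.val_pow_eq_pow_val, ZMod.coe_unitOfCoprime] at h4
      exact h4.symm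
    · refine h2.trans ?_
      have h3 := (hk2.pow i).symm
      rwa [one_pow] at h3
  · intro a
    have hne : (g : ZMod p) - 1 ≠ 0 := sub_ne_zero.2 hg1
    refine ⟨m' * (-(a : ZMod p) / ((g : ZMod p) - 1)).val, ?_⟩
    set b := (-(a : ZMod p) / ((g : ZMod p) - 1)).val with hb
    have hbz : ((b : ℕ) : ZMod p) = -(a : ZMod p) / ((g : ZMod p) - 1) := by
      rw [hb, ZMod.natCast_zmod_val]
    rw [map_pow, hσ₀, ← pow_mul, ← pow_mul, ← pow_add]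
    apply pow_eq_of_modEq hζ
    have h1 : k * b + a ≡ b [MOD p] := by
      rw [← ZMod.natCast_eq_natCast_iff]
      push_cast
      rw [hkz, hbz]
      field_simp
      ring
    have h2 : k * (m' * b) + m' * a = m' * (k * b + a) := by ring
    rw [h2, hm, mul_comm p m']
    exact Nat.ModEq.mul_left' m' h1

/-- case `p ∣ m / p` -/
lemma gen_B (hζ : IsPrimitiveRoot ζ m) (p : ℕ) [hp : Fact p.Prime]
    (m' : ℕ) (hm : m = p * m') (hpm : p ∣ m') :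
    ∃ σ₀ : K ≃ₐ[ℚ] K, σ₀ (ζ ^ p) = ζ ^ p ∧
      (∀ σ : K ≃ₐ[ℚ] K, σ (ζ ^ p) = ζ ^ p → ∃ i : ℕ, σ = σ₀ ^ i) ∧
      ∀ a : ℕ, ∃ j : ℕ, σ₀ (ζ ^ j) * (ζ ^ m') ^ a = ζ ^ j := by
  classical
  have hζ0 : ζ ≠ 0 := hζ.ne_zero (NeZero.ne m)
  have hη : IsPrimitiveRoot (ζ ^ m') p := hζ.pow (NeZero.pos m) (by rw [hm, mul_comm])
  have hkm : (1 + m').Coprime m := by
    rw [hm]
    refine Nat.Coprime.mul_right ?_ ?_
    · obtain ⟨q, rfl⟩ := hpm
      rw [Nat.coprime_add_mul_left_left]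
      exact Nat.coprime_one_left p
    · rw [Nat.coprime_add_self_left]
      exact Nat.coprime_one_left m'
  obtain ⟨σ₀, hσ₀⟩ := exists_aut hζ hkm
  have hηp : ∀ i : ℕ, (ζ ^ m') ^ (p * i) = 1 := fun i => by rw [pow_mul, hη.pow_eq_one, one_pow]
  have h2 : σ₀ (ζ ^ m') = ζ ^ m' := by
    rw [map_pow, hσ₀, ← pow_mul, add_mul, one_mul, pow_add]
    obtain ⟨q, hq⟩ := hpm
    have : ζ ^ (m' * m') = 1 := by
      conv_lhs => rw [pow_mul]; arg 2; rw [hq]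
      exact hηp q
    rw [this, mul_one]
  have hσ₀' : σ₀ ζ = ζ ^ m' * ζ := by rw [hσ₀, pow_add, pow_one, mul_comm]
  have h1 : σ₀ (ζ ^ p) = ζ ^ p := by
    rw [map_pow, hσ₀', mul_pow, ← pow_mul, mul_comm m' p, ← hm, hζ.pow_eq_one, one_mul]
  have hpw : ∀ i : ℕ, (σ₀ ^ i) ζ = (ζ ^ m') ^ i * ζ := by
    intro i
    induction i with
    | zero => simp
    | succ i ih =>
      rw [pow_succ', AlgEquiv.mul_apply, ih, map_mul, map_pow, h2, hσ₀']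
      ring
  refine ⟨σ₀, h1, ?_, ?_⟩
  · intro σ hσ
    obtain ⟨i, -, hi⟩ := hη.eq_pow_of_pow_eq_one (ξ := σ ζ / ζ) (by
      rw [div_pow, ← map_pow, hσ, div_self (pow_ne_zero _ hζ0)])
    have hi' : σ ζ = (ζ ^ m') ^ i * ζ := by rw [hi, div_mul_cancel₀ _ hζ0]
    exact ⟨i, aut_ext hζ (by rw [hi', hpw i])⟩
  · intro a
    refine ⟨(p - 1) * a, ?_⟩
    have haa : (p - 1) * a + a = p * a := by
      have := hp.out.pos
      obtain ⟨q, rfl⟩ : ∃ q, p = q + 1 := ⟨p - 1, by omega⟩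
      simp only [Nat.add_sub_cancel]
      ring
    rw [map_pow, hσ₀', mul_pow]
    have e1 : (ζ ^ m') ^ ((p - 1) * a) * ζ ^ ((p - 1) * a) * (ζ ^ m') ^ a =
        (ζ ^ m') ^ ((p - 1) * a + a) * ζ ^ ((p - 1) * a) := by
      rw [pow_add]
      ring
    rw [e1, haa, hηp, one_mul]

lemma gen_twist (hζ : IsPrimitiveRoot ζ m) (p : ℕ) [hp : Fact p.Prime] (hp2 : p ≠ 2)
    (m' : ℕ) (hm : m = p * m') :
    ∃ σ₀ : K ≃ₐ[ℚ] K, σ₀ (ζ ^ p) = ζ ^ p ∧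
      (∀ σ : K ≃ₐ[ℚ] K, σ (ζ ^ p) = ζ ^ p → ∃ i : ℕ, σ = σ₀ ^ i) ∧
      ∀ a : ℕ, ∃ j : ℕ, σ₀ (ζ ^ j) * (ζ ^ m') ^ a = ζ ^ j := by
  by_cases h : p ∣ m'
  · exact gen_B hζ p m' hm h
  · exact gen_A hζ p hp2 m' hm h

end Pool.Agent.helper69.SLR
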