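import Pool.Agent.helper69.SLR.Desc
import Pool.Agent.helper79.SL.Fin

set_option autoImplicit false

/-!
# Final forms: radicals over extensions of degree `f` of the maximal abelian extension (helper69)
-/

namespace Pool.Agent.helper69.SLR

open NumberField Height Finset Module IntermediateField Polynomial Pool.Agent.helper79.SL

/-- finitely many elements of `Qab` lie in one cyclotomic field -/
lemma common_level {ι : Type*} (s : Finset ι) (c : ι → ℂ) (hc : ∀ i ∈ s, c i ∈ Qab) :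
    ∃ (m : ℕ) (ζ : ℂ), 0 < m ∧ IsPrimitiveRoot ζ m ∧ ∀ i ∈ s, c i ∈ ℚ⟮ζ⟯ := by
  classical
  induction s using Finset.induction_on with
  | empty => exact ⟨1, 1, one_pos, IsPrimitiveRoot.one, by simp⟩
  | insert a s ha ih =>
    obtain ⟨m, ζ, hm, hζ, h1⟩ := ih fun i hi => hc i (Finset.mem_insert_of_mem hi)
    obtain ⟨n, ξ, hn, hξ, h2⟩ := mem_Qab (hc a (Finset.mem_insert_self a s))
    have hmn : m * n ≠ 0 := Nat.mul_ne_zero hm.ne' hn.ne'
    refine ⟨m * n, _, Nat.pos_of_ne_zero hmn, Complex.isPrimitiveRoot_exp (m * n) hmn, ?_⟩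
    intro i hi
    rcases Finset.mem_insert.1 hi with rfl | hi
    · exact adjoin_root_le hn.ne' hmn (Dvd.intro_left _ rfl) hξ.pow_eq_one
        (Complex.isPrimitiveRoot_exp (m * n) hmn) h2
    · exact adjoin_root_le hm.ne' hmn (Dvd.intro _ rfl) hζ.pow_eq_one
        (Complex.isPrimitiveRoot_exp (m * n) hmn) (h1 i hi)

/-- **The height of elements of degree at most `f` over `Qab`.** -/
theorem ht_ge_rel (f p : ℕ) (hf : 1 ≤ f) [hp : Fact p.Prime] (hp2 : p ≠ 2) {x : ℂ}
    (hx0 : x ≠ 0) (hxt : ∀ k : ℕ, 0 < k → x ^ k ≠ 1) (hint : IsIntegral Qab x)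
    (hdeg : (minpoly Qab x).natDegree ≤ f) :
    (Real.log p - f * Real.log 2) / (2 * p * f) ≤ ht x := by
  classical
  set M := minpoly Qab x with hM
  have hMm : M.Monic := minpoly.monic hint
  obtain ⟨m, ζ, hm, hζ, hco⟩ := common_level (Finset.range (M.natDegree + 1))
    (fun i => ((M.coeff i : Qab) : ℂ)) (fun i _ => (M.coeff i).2)
  have hco' : ∀ i, ((M.coeff i : Qab) : ℂ) ∈ ℚ⟮ζ⟯ := by
    intro i
    by_cases hi : i ∈ Finset.range (M.natDegree + 1)
    · exact hco i hi
    · have h1 : M.coeff i = 0 := coeff_eq_zero_of_natDegree_lt (by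
        rw [Finset.mem_range] at hi
        omega)
      rw [h1]
      exact zero_mem _
  have hQalg : Algebra.IsAlgebraic ℚ Qab :=
    ⟨fun y => by
      have h1 := isAlgebraic_of_mem_Qab y.2
      exact (isAlgebraic_algebraMap_iff (algebraMap Qab ℂ).injective).1 h1⟩
  have hxalg : IsAlgebraic ℚ x := hint.isAlgebraic.restrictScalars ℚ
  have hζalg : IsAlgebraic ℚ ζ := by
    have h2 : IsIntegral ℚ ζ := (hζ.isIntegral hm).tower_top
    exact h2.isAlgebraic
  obtain ⟨N, _, _, _, φ, a, ha⟩ := exists_galois ![x, ζ] (by intro i; fin_cases i <;> assumption)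
  have ha0 : φ (a 0) = x := ha 0
  have ha1 : φ (a 1) = ζ := ha 1
  have hZ : IsPrimitiveRoot (a 1) m := by
    apply IsPrimitiveRoot.of_map_of_injective (f := φ) _ φ.injective
    rw [ha1]
    exact hζ
  have hmem : ∀ y ∈ ℚ⟮ζ⟯, ∃ z ∈ ℚ⟮a 1⟯, φ z = y := by
    intro y hy
    induction hy using adjoin_induction with
    | mem y hy => exact ⟨a 1, mem_adjoin_simple_self ℚ _, by rw [ha1, Set.mem_singleton_iff.1 hy]⟩
    | algebraMap q =>
      exact ⟨algebraMap ℚ N q, IntermediateField.algebraMap_mem _ q, by simp⟩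
    | add u v _ _ hu hv =>
      obtain ⟨u', hu', rfl⟩ := hu
      obtain ⟨v', hv', rfl⟩ := hv
      exact ⟨u' + v', add_mem hu' hv', map_add φ _ _⟩
    | inv u _ hu =>
      obtain ⟨u', hu', rfl⟩ := hu
      exact ⟨u'⁻¹, inv_mem hu', map_inv₀ φ _⟩
    | mul u v _ _ hu hv =>
      obtain ⟨u', hu', rfl⟩ := hu
      obtain ⟨v', hv', rfl⟩ := hv
      exact ⟨u' * v', mul_mem hu' hv', map_mul φ _ _⟩
  have hlift : M.map (algebraMap Qab ℂ) ∈ lifts φ := by
    rw [lifts_iff_coeff_lifts]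
    intro i
    obtain ⟨z, -, hz⟩ := hmem _ (hco' i)
    exact ⟨z, by rw [hz, coeff_map]; rfl⟩
  obtain ⟨q, hq1, hq2, hq3⟩ := lifts_and_natDegree_eq_and_monic hlift (hMm.map _)
  have hlow : Low f (a 1) (a 0) := by
    refine ⟨q, hq3, ?_, ?_, ?_⟩
    · rw [hq2]
      exact natDegree_map_le.trans hdeg
    · apply φ.injective
      rw [map_zero, ← eval₂_hom, ← eval_map, hq1, ha0, eval_map, ← aeval_def, minpoly.aeval]
    · intro i
      obtain ⟨z, hz1, hz2⟩ := hmem _ (hco' i)
      have h1 : φ (q.coeff i) = φ z := by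
        rw [hz2, ← coeff_map, hq1, coeff_map]
        rfl
      rw [φ.injective h1]
      exact hz1
  have ha00 : a 0 ≠ 0 := by
    intro h
    apply hx0
    rw [← ha0, h, map_zero]
  have hat : ∀ k : ℕ, 0 < k → a 0 ^ k ≠ 1 := by
    intro k hk h
    apply hxt k hk
    rw [← ha0, ← map_pow, h, map_one]
  have hmain := desc f p hf hp2 m hm (a 1) hZ (a 0) ha00 hat hlow
  have hht := ht_eq φ (a 0)
  rw [ha0] at hht
  have hd : (0 : ℝ) < finrank ℚ N := by exact_mod_cast (finrank_pos : 0 < finrank ℚ N)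
  have hp0 : (0 : ℝ) < p := by exact_mod_cast hp.out.pos
  have hf0 : (0 : ℝ) < f := by exact_mod_cast hf
  rw [hht, div_le_div_iff₀ (by positivity) hd]
  linarith

/-- **Simultaneous Lehmer problem for radicals over extensions of degree `f` of `Qab`.** -/
theorem ext_radicals (n f p : ℕ) (hn : 0 < n) (hf : 1 ≤ f) (hp : p.Prime) (hfp : 2 ^ f < p)
    (F : IntermediateField Qab ℂ) [FiniteDimensional Qab F] (hF : finrank Qab F ≤ f)
    (α : Fin n → ℂ) (h0 : ∀ i, α i ≠ 0)
    (hrad : ∀ i, ∃ k : ℕ, 0 < k ∧ α i ^ k ∈ F)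
    (hind : ∀ w : Fin n → ℤ, ∏ i, α i ^ w i = 1 → w = 0) :
    finrank F (adjoin F (Set.range α)) ≤ finrank ℚ (adjoin ℚ (Set.range α)) ∧
    ((Real.log p - f * Real.log 2) / (2 * p * f * n)) ^ n /
      finrank F (adjoin F (Set.range α)) ≤ ∏ i, ht (α i) := by
  classical
  have : Fact p.Prime := ⟨hp⟩
  have hp2 : p ≠ 2 := by
    rintro rfl
    have : 2 ^ 1 ≤ 2 ^ f := Nat.pow_le_pow_right (by norm_num) hf
    omega
  have hQalg : Algebra.IsAlgebraic ℚ Qab :=
    ⟨fun y => by
      have h1 := isAlgebraic_of_mem_Qab y.2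
      exact (isAlgebraic_algebraMap_iff (algebraMap Qab ℂ).injective).1 h1⟩
  have hFint : ∀ y ∈ F, IsIntegral Qab y := by
    intro y hy
    have h1 : IsIntegral Qab (⟨y, hy⟩ : F) := Algebra.IsIntegral.isIntegral _
    exact h1.map F.val
  have hFdeg : ∀ y ∈ F, (minpoly Qab y).natDegree ≤ f := by
    intro y hy
    have h1 := minpoly.natDegree_le (A := Qab) (⟨y, hy⟩ : F)
    have h2 : minpoly Qab (⟨y, hy⟩ : F) = minpoly Qab y :=
      (minpoly.algHom_eq F.val F.val.injective (⟨y, hy⟩ : F)).symm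
    rw [h2] at h1
    exact h1.trans hF
  have hFalg : ∀ y ∈ F, IsAlgebraic ℚ y := fun y hy =>
    (hFint y hy).isAlgebraic.restrictScalars ℚ
  have halg : ∀ i, IsAlgebraic ℚ (α i) := by
    intro i
    obtain ⟨k, hk, h⟩ := hrad i
    exact (hFalg _ h).of_pow hk
  have hlog : 0 < Real.log p - f * Real.log 2 := by
    rw [sub_pos, ← Real.log_pow]
    apply Real.log_lt_log (by positivity)
    exact_mod_cast hfp
  have hp0 : (0 : ℝ) < p := by exact_mod_cast hp.pos
  have hf0 : (0 : ℝ) < f := by exact_mod_cast hf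
  have hroot : ∀ (k : ℕ) (ζ : ℂ), 0 < k → ζ ^ k = 1 → ζ ∈ F.restrictScalars ℚ := by
    intro k ζ hk hζ
    exact F.algebraMap_mem (⟨ζ, root_mem_Qab k ζ hk hζ⟩ : Qab)
  refine ⟨?_, ?_⟩
  · exact finrank_adjoin_le (F.restrictScalars ℚ) (Set.finite_range α)
      (by rintro _ ⟨i, rfl⟩; exact halg i)
  · have hmain := prod_ht_ge (F := F.restrictScalars ℚ) hroot hn α h0 halg hrad
      (b := (Real.log p - f * Real.log 2) / (2 * p * f)) (by positivity) (by
        intro w hw hF'
        refine ht_ge_rel f p hf hp2 (Finset.prod_ne_zero_iff.2 fun i _ => zpow_ne_zero _ (h0 i))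
          ?_ (hFint _ hF') (hFdeg _ hF')
        intro k hk hpow
        apply hw
        have h2 : ∏ i, α i ^ ((k : ℤ) * w i) = 1 := by
          rw [← hpow, ← Finset.prod_pow]
          refine Finset.prod_congr rfl fun i _ => ?_
          rw [← zpow_natCast, ← zpow_mul, mul_comm]
        have h3 := hind _ h2
        funext i
        have h4 := congrFun h3 i
        simp only [Pi.zero_apply, mul_eq_zero] at h4
        exact h4.resolve_left (by exact_mod_cast hk.ne'))
    rw [div_div] at hmain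
    exact hmain

end Pool.Agent.helper69.SLR
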