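import Pool.Agent.helper79.SL.AD

set_option autoImplicit false

/-!
# Congruences for products over a family (helper69)

Ring theoretic lemmas for the relative form of the lower bound of the height.
-/

namespace Pool.Agent.helper69.SLR

open Finset Polynomial Pool.Agent.helper79.SL

variable {O : Type*} [CommRing O]

/-- Frobenius is additive modulo `p B ^ p` on an ideal `B` -/
lemma add_pow_sub_mem (p : ℕ) (hp : p.Prime) (B : Ideal O) {x y : O} (hx : x ∈ B) (hy : y ∈ B) :
    (x + y) ^ p - (x ^ p + y ^ p) ∈ Ideal.span {(p : O)} * B ^ p := by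
  obtain ⟨q, rfl⟩ : ∃ q, p = q + 1 := ⟨p - 1, by have := hp.pos; omega⟩
  rw [add_pow, Finset.sum_range_succ, Finset.sum_range_succ']
  have e : ∑ k ∈ range q, x ^ (k + 1) * y ^ (q + 1 - (k + 1)) * ((q + 1).choose (k + 1) : O) +
      x ^ 0 * y ^ (q + 1 - 0) * ((q + 1).choose 0 : O) +
      x ^ (q + 1) * y ^ (q + 1 - (q + 1)) * ((q + 1).choose (q + 1) : O) -
      (x ^ (q + 1) + y ^ (q + 1)) =
      ∑ k ∈ range q, x ^ (k + 1) * y ^ (q + 1 - (k + 1)) * ((q + 1).choose (k + 1) : O) := by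
    simp only [pow_zero, one_mul, Nat.sub_zero, Nat.choose_zero_right, Nat.cast_one, mul_one,
      Nat.sub_self, Nat.choose_self]
    ring
  rw [e]
  refine sum_mem fun k hk => ?_
  rw [Finset.mem_range] at hk
  obtain ⟨c, hc⟩ := hp.dvd_choose_self (k := k + 1) (by omega) (by omega)
  rw [hc]
  have h1 : x ^ (k + 1) * y ^ (q + 1 - (k + 1)) ∈ B ^ (q + 1) := by
    have h2 : B ^ (q + 1) = B ^ (k + 1) * B ^ (q + 1 - (k + 1)) := by
      rw [← pow_add]
      congr 1
      omega
    rw [h2]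
    exact Ideal.mul_mem_mul (Ideal.pow_mem_pow hx _) (Ideal.pow_mem_pow hy _)
  have h3 : x ^ (k + 1) * y ^ (q + 1 - (k + 1)) * (((q + 1) * c : ℕ) : O) =
      ((q + 1 : ℕ) : O) * (x ^ (k + 1) * y ^ (q + 1 - (k + 1)) * c) := by
    push_cast
    ring
  rw [h3]
  exact Ideal.mul_mem_mul (Ideal.mem_span_singleton_self _) (Ideal.mul_mem_right _ _ h1)

lemma sum_pow_sub_mem (p : ℕ) (hp : p.Prime) (B : Ideal O) {ι : Type*} (s : Finset ι) (x : ι → O)
    (hx : ∀ i ∈ s, x i ∈ B) :
    (∑ i ∈ s, x i) ^ p - ∑ i ∈ s, x i ^ p ∈ Ideal.span {(p : O)} * B ^ p := by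
  classical
  induction s using Finset.induction_on with
  | empty => simp [zero_pow hp.ne_zero]
  | insert a s ha ih =>
    have hs : ∀ i ∈ s, x i ∈ B := fun i hi => hx i (Finset.mem_insert_of_mem hi)
    rw [Finset.sum_insert ha, Finset.sum_insert ha]
    have h1 := add_pow_sub_mem p hp B (hx a (Finset.mem_insert_self a s)) (sum_mem hs)
    have h2 := add_mem h1 (ih hs)
    convert h2 using 1
    ring

lemma sub_pow_sub_mem (p : ℕ) (hp : p.Prime) (hp2 : p ≠ 2) (B : Ideal O) {x y : O} (hx : x ∈ B)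
    (hy : y ∈ B) : (x ^ p - y ^ p) - (x - y) ^ p ∈ Ideal.span {(p : O)} * B ^ p := by
  have h1 := add_pow_sub_mem p hp B hx (neg_mem hy)
  rw [(hp.odd_of_ne_two hp2).neg_pow] at h1
  have h2 := neg_mem h1
  convert h2 using 1
  ring

lemma prod_sub_prod_mem (P : Ideal O) {ι : Type*} (s : Finset ι) (B : ι → Ideal O) (x y : ι → O)
    (hx : ∀ i ∈ s, x i ∈ B i) (hy : ∀ i ∈ s, y i ∈ B i)
    (hxy : ∀ i ∈ s, x i - y i ∈ P * B i) :
    ∏ i ∈ s, x i - ∏ i ∈ s, y i ∈ P * ∏ i ∈ s, B i := by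
  classical
  induction s using Finset.induction_on with
  | empty => simp
  | insert a s ha ih =>
    have hxs : ∀ i ∈ s, x i ∈ B i := fun i hi => hx i (Finset.mem_insert_of_mem hi)
    have hys : ∀ i ∈ s, y i ∈ B i := fun i hi => hy i (Finset.mem_insert_of_mem hi)
    rw [Finset.prod_insert ha, Finset.prod_insert ha, Finset.prod_insert ha]
    exact mul_sub_mul_mem P (B a) (∏ i ∈ s, B i) (Ideal.prod_mem_prod hxs)
      (hy a (Finset.mem_insert_self a s)) (hxy a (Finset.mem_insert_self a s))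
      (ih hxs hys fun i hi => hxy i (Finset.mem_insert_of_mem hi))

lemma coeff_prod_mem {ι : Type*} (s : Finset ι) (a b : ι → O) (k : ℕ) :
    (∏ j ∈ s, (C (b j) * X - C (a j))).coeff k ∈ ∏ j ∈ s, Ideal.span {a j, b j} := by
  have h1 : ∀ j ∈ s, C (b j) * X - C (a j) ∈ Ideal.map C (Ideal.span {a j, b j}) := by
    intro j _
    refine sub_mem (Ideal.mul_mem_right _ _ (Ideal.mem_map_of_mem C ?_)) (Ideal.mem_map_of_mem C ?_)
    · exact Ideal.subset_span (by simp)
    · exact Ideal.subset_span (by simp)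
  have h2 := Ideal.prod_mem_prod h1
  have h3 : ∏ j ∈ s, Ideal.map (C : O →+* O[X]) (Ideal.span {a j, b j}) =
      Ideal.map C (∏ j ∈ s, Ideal.span {a j, b j}) := by
    classical
    induction s using Finset.induction_on with
    | empty => simp [Ideal.one_eq_top, Ideal.map_top]
    | insert a s ha ih =>
      rw [Finset.prod_insert ha, Finset.prod_insert ha, Ideal.map_mul, ih]
      · intro j hj
        exact h1 j (Finset.mem_insert_of_mem hj)
      · exact Ideal.prod_mem_prod fun j hj => h1 j (Finset.mem_insert_of_mem hj)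
  rw [h3, Ideal.mem_map_C_iff] at h2
  exact h2 k

/-- homogeneous evaluation -/
def hom (d : ℕ) (Q : O[X]) (A B : O) : O := ∑ i ∈ range (d + 1), Q.coeff i * (A ^ i * B ^ (d - i))

lemma hom_mul (d : ℕ) (Q : O[X]) (hQ : Q.natDegree ≤ d) (a b A B : O) :
    hom (d + 1) ((C b * X - C a) * Q) A B = (b * A - a * B) * hom d Q A B := by
  unfold hom
  have h0 : Q.coeff (d + 1) = 0 := coeff_eq_zero_of_natDegree_lt (by omega)
  have hc : ∀ i, ((C b * X - C a) * Q).coeff (i + 1) = b * Q.coeff i - a * Q.coeff (i + 1) := by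
    intro i
    rw [sub_mul, coeff_sub, mul_assoc, coeff_C_mul, coeff_X_mul, coeff_C_mul]
  have hc0 : ((C b * X - C a) * Q).coeff 0 = - (a * Q.coeff 0) := by
    rw [sub_mul, coeff_sub, mul_assoc, coeff_C_mul, mul_coeff_zero, coeff_X_zero, coeff_C_mul]
    ring
  rw [Finset.sum_range_succ']
  simp only [hc, hc0]
  have h1 : ∑ i ∈ range (d + 1), (b * Q.coeff i - a * Q.coeff (i + 1)) *
      (A ^ (i + 1) * B ^ (d + 1 - (i + 1))) =
      b * A * ∑ i ∈ range (d + 1), Q.coeff i * (A ^ i * B ^ (d - i)) -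
      ∑ i ∈ range (d + 1), a * Q.coeff (i + 1) * (A ^ (i + 1) * B ^ (d + 1 - (i + 1))) := by
    rw [Finset.mul_sum, ← Finset.sum_sub_distrib]
    refine Finset.sum_congr rfl fun i hi => ?_
    have : d + 1 - (i + 1) = d - i := by omega
    rw [this, pow_succ]
    ring
  have h2 : a * B * ∑ i ∈ range (d + 1), Q.coeff i * (A ^ i * B ^ (d - i)) =
      ∑ i ∈ range (d + 1), a * Q.coeff (i + 1) * (A ^ (i + 1) * B ^ (d + 1 - (i + 1))) +
      a * Q.coeff 0 * (A ^ 0 * B ^ (d + 1 - 0)) := by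
    have h3 := Finset.sum_range_succ' (fun i => a * Q.coeff i * (A ^ i * B ^ (d + 1 - i))) (d + 1)
    rw [← h3, Finset.sum_range_succ (fun k => a * Q.coeff k * (A ^ k * B ^ (d + 1 - k))), h0,
      mul_zero, zero_mul, add_zero, Finset.mul_sum]
    refine Finset.sum_congr rfl fun i hi => ?_
    rw [Finset.mem_range] at hi
    have : d + 1 - i = (d - i) + 1 := by omega
    rw [this, pow_succ]
    ring
  rw [h1, sub_mul, h2]
  ring

lemma natDegree_prod_le' {ι : Type*} (s : Finset ι) (a b : ι → O) :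
    (∏ j ∈ s, (C (b j) * X - C (a j))).natDegree ≤ #s := by
  refine (natDegree_prod_le s _).trans ?_
  rw [Finset.card_eq_sum_ones]
  refine Finset.sum_le_sum fun j _ => ?_
  exact (natDegree_sub_le _ _).trans (max_le (natDegree_C_mul_le _ _ |>.trans natDegree_X_le)
    (by simp))

lemma hom_prod {ι : Type*} (s : Finset ι) (a b : ι → O) (A B : O) :
    hom #s (∏ j ∈ s, (C (b j) * X - C (a j))) A B = ∏ j ∈ s, (b j * A - a j * B) := by
  classical
  induction s using Finset.induction_on with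
  | empty => simp [hom]
  | insert j s hj ih =>
    rw [Finset.prod_insert hj, Finset.prod_insert hj, Finset.card_insert_of_notMem hj,
      hom_mul _ _ (natDegree_prod_le' s a b), ih]

end Pool.Agent.helper69.SLR
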